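import Pool.Agent.U204.PN.Stm

/-!
# Project PN (helper204), package TAIL
-/

set_option autoImplicit false

open MeasureTheory Filter Topology Finset

namespace Pool.Agent.U364.PN.TAIL

open Pool.Agent.U204.PN

theorem pt_zero (A : Set ℕ) : pt A 0 = 1 := by
  unfold pt
  rw [Nat.card_eq_one_iff_unique]
  refine ⟨⟨fun a b => Subtype.ext (Subsingleton.elim _ _)⟩, ⟨⟨default, fun i hi => ?_⟩⟩⟩
  rw [Nat.Partition.partition_zero_parts] at hi
  simp at hi

open Classical in
theorem J_succ (A : Set ℕ) (M k : ℕ) (c : Fin (k + 1) → ℤ) (D : ℕ) :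
    J A M k c (D + 1) = J A M k c D + if (M : ℤ) ∣ F A k c (D + 1) then 0 else 1 := by
  unfold J
  rw [Finset.card_filter, Finset.card_filter, Finset.sum_Icc_succ_top (by omega)]
  by_cases h : (M : ℤ) ∣ F A k c (D + 1)
  · simp [h]
  · simp [h]

theorem F_congr (hL : S_LOC) {A B : Set ℕ} {k : ℕ} (c : Fin (k + 1) → ℤ) {n : ℕ}
    (h : ∀ m, 1 ≤ m → m ≤ n + k → (m ∈ A ↔ m ∈ B)) : F A k c n = F B k c n := by
  refine Finset.sum_congr rfl fun j _ => ?_
  have hj : (j : ℕ) < k + 1 := j.2
  rw [hL A B (n + j) fun m h1 h2 => h m h1 (by omega)]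

theorem J_congr (hL : S_LOC) {A B : Set ℕ} (M : ℕ) {k : ℕ} (c : Fin (k + 1) → ℤ) {D : ℕ}
    (h : ∀ m, 1 ≤ m → m ≤ D + k → (m ∈ A ↔ m ∈ B)) : J A M k c D = J B M k c D := by
  induction D with
  | zero => simp [J]
  | succ D ih =>
    rw [J_succ, J_succ, ih fun m h1 h2 => h m h1 (by omega), F_congr hL c (n := D + 1) h]

theorem two (hL : S_LOC) (hO : S_ONE) (A : Set ℕ) (M k : ℕ) (c : Fin (k + 1) → ℤ)
    (hc : ¬ (M : ℤ) ∣ c (Fin.last k)) (D : ℕ) (hA : D + 1 + k ∉ A) :
    ¬ (M : ℤ) ∣ F A k c (D + 1) ∨ ¬ (M : ℤ) ∣ F (insert (D + 1 + k) A) k c (D + 1) := by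
  by_contra hcon
  push Not at hcon
  apply hc
  have h1 : F (insert (D + 1 + k) A) k c (D + 1) - F A k c (D + 1) = c (Fin.last k) := by
    unfold F
    rw [Fin.sum_univ_castSucc, Fin.sum_univ_castSucc]
    have h2 : ∀ j : Fin k, pt (insert (D + 1 + k) A) (D + 1 + (j.castSucc : ℕ)) =
        pt A (D + 1 + (j.castSucc : ℕ)) := by
      intro j
      apply hL
      intro m _ hm
      have hj : (j.castSucc : ℕ) < k := j.2
      constructor
      · rintro (h | h)
        · omega
        · exact h
      · exact fun h => Or.inr h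
    have h3 : pt (insert (D + 1 + k) A) (D + 1 + (Fin.last k : ℕ)) =
        pt A (D + 1 + (Fin.last k : ℕ)) + 1 := by
      have := hO A (D + 1 + k) (D + 1 + k) le_rfl (by omega) hA
      rw [Nat.sub_self, pt_zero] at this
      exact this
    rw [h3]
    simp only [h2]
    push_cast
    ring
  rw [← h1]
  exact dvd_sub hcon.2 hcon.1

theorem point (hL : S_LOC) (hO : S_ONE) (S : Set ℕ) (M k : ℕ) (c : Fin (k + 1) → ℤ)
    (hc : ¬ (M : ℤ) ∣ c (Fin.last k)) (D : ℕ) (η l e : ℝ) (hη : 0 ≤ η) (hl : 0 ≤ l) (he1 : η ≤ e)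
    (he2 : e ≤ 1 / 2) (ω : ℕ → Bool) :
    (1 - e) * Real.exp (-(l * J (chg S (Function.update ω (D + 1 + k) false)) M k c (D + 1))) +
      e * Real.exp (-(l * J (chg S (Function.update ω (D + 1 + k) true)) M k c (D + 1))) ≤
    (1 - η * (1 - Real.exp (-l))) * Real.exp (-(l * J (chg S ω) M k c D)) := by
  have hJ : ∀ b, J (chg S (Function.update ω (D + 1 + k) b)) M k c D = J (chg S ω) M k c D := by
    intro b
    apply J_congr hL
    intro m _ hm
    simp only [chg, Set.mem_ofPred_eq]
    rw [Function.update_of_ne (by omega)]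
  have hT : ¬ (M : ℤ) ∣ F (chg S (Function.update ω (D + 1 + k) false)) k c (D + 1) ∨
      ¬ (M : ℤ) ∣ F (chg S (Function.update ω (D + 1 + k) true)) k c (D + 1) := by
    by_cases hS : D + 1 + k ∈ S
    · have h1 : D + 1 + k ∉ chg S (Function.update ω (D + 1 + k) true) := by
        simp [chg, hS]
      have h2 : insert (D + 1 + k) (chg S (Function.update ω (D + 1 + k) true)) =
          chg S (Function.update ω (D + 1 + k) false) := by
        ext i
        by_cases hi : i = D + 1 + k
        · subst hi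
          simp [chg, hS]
        · simp [chg, Function.update_of_ne hi, hi]
      have h3 := two hL hO _ M k c hc D h1
      rw [h2] at h3
      exact h3.symm
    · have h1 : D + 1 + k ∉ chg S (Function.update ω (D + 1 + k) false) := by
        simp [chg, hS]
      have h2 : insert (D + 1 + k) (chg S (Function.update ω (D + 1 + k) false)) =
          chg S (Function.update ω (D + 1 + k) true) := by
        ext i
        by_cases hi : i = D + 1 + k
        · subst hi
          simp [chg, hS]
        · simp [chg, Function.update_of_ne hi, hi]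
      have h3 := two hL hO _ M k c hc D h1
      rw [h2] at h3
      exact h3
  have hx0 : 0 < Real.exp (-l) := Real.exp_pos _
  have hx1 : Real.exp (-l) ≤ 1 := Real.exp_le_one_iff.2 (by linarith)
  have hP : 0 < Real.exp (-(l * J (chg S ω) M k c D)) := Real.exp_pos _
  have e1 : Real.exp (-(l * ((J (chg S ω) M k c D + 1 : ℕ) : ℝ))) =
      Real.exp (-(l * J (chg S ω) M k c D)) * Real.exp (-l) := by
    rw [← Real.exp_add]
    congr 1
    push_cast
    ring
  rw [J_succ, J_succ, hJ, hJ]
  obtain ⟨P, hPd⟩ : ∃ P, P = Real.exp (-(l * J (chg S ω) M k c D)) := ⟨_, rfl⟩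
  obtain ⟨x, hxd⟩ : ∃ x, x = Real.exp (-l) := ⟨_, rfl⟩
  rw [← hPd, ← hxd] at e1
  rw [← hxd] at hx0 hx1
  rw [← hPd] at hP
  have key : ∀ y : ℝ, y ≤ 1 - η * (1 - x) → P * y ≤ (1 - η * (1 - x)) * P := by
    intro y hy
    rw [mul_comm]
    exact mul_le_mul_of_nonneg_right hy hP.le
  have hx2 : 0 ≤ 1 - x := by linarith
  by_cases d0 : (M : ℤ) ∣ F (chg S (Function.update ω (D + 1 + k) false)) k c (D + 1)
  · have d1 : ¬ (M : ℤ) ∣ F (chg S (Function.update ω (D + 1 + k) true)) k c (D + 1) :=
      hT.resolve_left (not_not.2 d0)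
    rw [if_pos d0, if_neg d1, e1, add_zero, ← hPd, ← hxd]
    have h := key ((1 - e) + e * x) (by nlinarith)
    linarith
  · by_cases d1 : (M : ℤ) ∣ F (chg S (Function.update ω (D + 1 + k) true)) k c (D + 1)
    · rw [if_neg d0, if_pos d1, e1, add_zero, ← hPd, ← hxd]
      have h := key ((1 - e) * x + e) (by nlinarith)
      linarith
    · rw [if_neg d0, if_neg d1, e1, ← hPd, ← hxd]
      have h := key x (by nlinarith)
      linarith

/-- **Package TAIL.** -/
theorem t_TAIL : S_TAIL := by
  intro hL hO hA μ _ S M k c hc D η l hη hl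
  have hx0 : 0 < Real.exp (-l) := Real.exp_pos _
  have hx1 : Real.exp (-l) ≤ 1 := Real.exp_le_one_iff.2 (by linarith)
  have hloc : ∀ D, Loc fun ω => Real.exp (-(l * J (chg S ω) M k c D)) := by
    intro D
    refine ⟨D + k + 1, fun ω ω' hw => ?_⟩
    have : J (chg S ω) M k c D = J (chg S ω') M k c D := J_congr hL M c fun m _ hm => by
      simp only [chg, Set.mem_ofPred_eq]
      rw [hw m (by omega)]
    show Real.exp _ = Real.exp _
    rw [this]
  induction D with
  | zero =>
    intro _
    have : ∀ ω : ℕ → Bool, Real.exp (-(l * J (chg S ω) M k c 0)) = 1 := by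
      intro ω
      have h0 : J (chg S ω) M k c 0 = 0 := by simp [J]
      rw [h0]
      simp
    simp only [this]
    simp
  | succ D ih =>
    intro hm
    have ih' := ih fun m h => hm m (by omega)
    obtain ⟨he1, he2⟩ := hm (D + 1 + k) le_rfl
    have hav := (hA μ (D + 1 + k)).1
    obtain ⟨hi1, he⟩ := hav _ (hloc (D + 1))
    rw [he]
    have hη2 : η ≤ 1 / 2 := he1.trans he2
    calc _ ≤ ∫ ω, (1 - η * (1 - Real.exp (-l))) * Real.exp (-(l * J (chg S ω) M k c D))
            ∂(Measure.infinitePi μ) := by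
            apply integral_mono
            · refine (hav _ ?_).1
              obtain ⟨L, hLo⟩ := hloc (D + 1)
              refine ⟨L, fun ω ω' hw => ?_⟩
              have q : ∀ b : Bool, Real.exp (-(l * J (chg S (Function.update ω (D + 1 + k) b))
                  M k c (D + 1))) = Real.exp (-(l * J (chg S (Function.update ω' (D + 1 + k) b))
                  M k c (D + 1))) := by
                intro b
                apply hLo
                intro i hi
                by_cases hi' : i = D + 1 + k
                · subst hi'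
                  simp
                · rw [Function.update_of_ne hi', Function.update_of_ne hi']
                  exact hw i hi
              show _ * _ + _ * _ = _ * _ + _ * _
              rw [q, q]
            · exact (hav _ (hloc D)).1.const_mul _
            · intro ω
              exact point hL hO S M k c hc D η l _ hη hl he1 he2 ω
      _ = (1 - η * (1 - Real.exp (-l))) * ∫ ω, Real.exp (-(l * J (chg S ω) M k c D))
            ∂(Measure.infinitePi μ) := integral_const_mul _ _
      _ ≤ (1 - η * (1 - Real.exp (-l))) * (1 - η * (1 - Real.exp (-l))) ^ D := by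
            apply mul_le_mul_of_nonneg_left ih'
            nlinarith
      _ = _ := by ring

end Pool.Agent.U364.PN.TAIL
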